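import Pool.Agent.H17.UC.Dgu

/-!
# MP_028722, chains of gaps of the size of LargeGaps (UX): definitions and interfaces

Overview: /team-store/H91_UX.md, /team-store/H68_BVQ.md, /team-store/H5_RC.md.
`WB P B z` = the product of the primes `≤ z` other than `P` and outside `B` (`B` = a sparse set of dropped primes).
-/

set_option autoImplicit false

open Finset EG H69PG H73PC

namespace H91UX

/-- the product of the primes `≤ z` other than `P` and outside `B` -/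
noncomputable def WB (P : ℕ) (B : Finset ℕ) (z : ℕ) : ℕ := ∏ p ∈ (UC.PKe P 0 z) \ B, p

/-- interface 1: equidistribution of the primes in the classes modulo `WB P B z · d` -/
def DsVP : Prop := ∃ x0 : ℝ, ∀ x : ℝ, x0 ≤ x → ∃ (P : ℕ) (B : Finset ℕ), P.Prime ∧
    (P : ℝ) ≤ Real.exp (Real.log x ^ (1 / 20 : ℝ)) ∧
    (∀ p ∈ B, p.Prime ∧ Real.log x ^ (1 / 21 : ℝ) < (p : ℝ)) ∧
    ∑ p ∈ B, 1 / (p : ℝ) ≤ 1 / Real.log (Real.log x) ^ 2 ∧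
    ∀ w k : ℕ, Real.log x ≤ w → x / 3 ≤ (k : ℝ) → (k : ℝ) ≤ 2 * x / 3 →
      Nat.Coprime k (WB P B ⌊Real.log x / 100⌋₊) → ∃ (Y : ℝ) (E : ℕ → ℝ),
      UC.DsP P w ⌊x ^ (3 / 8 : ℝ)⌋₊ (WB P B ⌊Real.log x / 100⌋₊) (some k)
        ((range ⌊x / (4 * (WB P B ⌊Real.log x / 100⌋₊ : ℝ))⌋₊).filter
          (fun t => (WB P B ⌊Real.log x / 100⌋₊ * t + k).Prime)) Y E ∧
      (WB P B ⌊Real.log x / 100⌋₊ : ℝ) * ⌊x / (4 * (WB P B ⌊Real.log x / 100⌋₊ : ℝ))⌋₊ /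
        ((Nat.totient (WB P B ⌊Real.log x / 100⌋₊) : ℝ) * Real.log x) ≤ Y ∧
      ∀ C : ℝ, 1 ≤ C → C ≤ Real.log x ^ (1 / 80 : ℝ) →
        ErS ⌊x ^ (3 / 8 : ℝ)⌋₊ C (UC.Ep P E) ≤ Y * Real.exp (-Real.log x ^ (1 / 25 : ℝ))

/-- the size of the gaps: `log x (loglog x)² log₄ x/(log₃ x)²`, as a function of `L = log x` -/
noncomputable def sz (L : ℝ) : ℝ :=
  L * Real.log L ^ 2 * Real.log (Real.log (Real.log L)) / Real.log (Real.log L) ^ 2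

/-- interface 2: the presieve with a cluster -/
def PreP : Prop := ∀ (K : ℕ) (c0 : ℝ), 0 < c0 → ∃ c x0 : ℝ, 0 < c ∧ ∀ x : ℝ, x0 ≤ x → ∀ (P : ℕ) (B : Finset ℕ), P.Prime →
    (∀ p ∈ B, p.Prime ∧ Real.log x ^ (1 / 21 : ℝ) < (p : ℝ)) →
    ∑ p ∈ B, 1 / (p : ℝ) ≤ 1 / Real.log (Real.log x) ^ 2 →
    ∃ (b G Z : ℕ) (h : ℕ → ℕ), c * sz (Real.log x) ≤ (G : ℝ) ∧ (Z : ℝ) ≤ Real.log x ^ 2 ∧
      (∀ i, i < K → 1 ≤ h i ∧ h i ≤ Z ∧ Nat.Coprime (b + h i) (WB P B ⌊Real.log x / 100⌋₊)) ∧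
      (∀ i, i + 1 < K → h i + G < h (i + 1)) ∧
      (((Icc 1 Z).filter (fun s => Nat.Coprime (b + s) (WB P B ⌊Real.log x / 100⌋₊))).card : ℝ) ≤
        c0 * Real.log x

end H91UX
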