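import Pool.Agent.H91.UX.Wb
import Pool.Agent.H5.CP.Par
import Pool.Agent.H91.UC.Cg
import Pool.Agent.H17.UC.Cru

/-!
# MP_028722, UX: the final deduction
-/

set_option autoImplicit false

open Finset EG H69PG H73PC

namespace H91UX

/-- elementary inequalities for large `x` -/
theorem num1 {x : ℝ} (hx : 0 < x) (hL : 640000 ≤ Real.log x) : Real.log x ^ 2 ≤ x / 100 ∧ x ^ (1 / 50 : ℝ) ≤ x / 100 ∧
    (∀ z : ℕ, 400 * (z : ℝ) ≤ Real.log x → (4 : ℝ) ^ z ≤ x ^ (1 / 50 : ℝ)) ∧ x ^ (1 / 64 : ℝ) ≤ x ^ (1 / 50 : ℝ) ∧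
    2 * x ^ (9 / 10 : ℝ) ≤ x / (4 * x ^ (1 / 50 : ℝ)) ∧ 1 ≤ x ^ (9 / 10 : ℝ) ∧
    (∀ z : ℕ, Real.log x ≤ 800 * (z : ℝ) → Real.log (Real.log x) / 2 ≤ Real.log (z : ℝ)) := by
  set L := Real.log x with hLdef
  have hxe : x = Real.exp L := (Real.exp_log hx).symm
  have hp : ∀ e : ℝ, x ^ e = Real.exp (e * L) := by
    intro e
    rw [Real.rpow_def_of_pos hx, mul_comm]
  have h1 : L ^ 2 ≤ x / 100 := by
    have h2 : L / 4 ≤ Real.exp (L / 4) := by
      have := Real.add_one_le_exp (L / 4)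
      linarith
    have h3 : (L / 4) ^ 4 ≤ Real.exp (L / 4) ^ 4 := pow_le_pow_left₀ (by linarith) h2 4
    have h4 : Real.exp (L / 4) ^ 4 = x := by
      rw [hxe, ← Real.exp_nat_mul]
      congr 1
      push_cast
      ring
    rw [h4] at h3
    nlinarith [sq_nonneg L, mul_nonneg (sq_nonneg L) (by nlinarith : (0 : ℝ) ≤ L ^ 2 - 25600)]
  have hlog100 : (100 : ℝ) ≤ Real.exp 100 := by
    have := Real.add_one_le_exp (100 : ℝ)
    linarith
  have h2 : x ^ (1 / 50 : ℝ) ≤ x / 100 := by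
    rw [hp, le_div_iff₀ (by norm_num)]
    calc Real.exp (1 / 50 * L) * 100 ≤ Real.exp (1 / 50 * L) * Real.exp 100 :=
          mul_le_mul_of_nonneg_left hlog100 (Real.exp_pos _).le
      _ = Real.exp (1 / 50 * L + 100) := (Real.exp_add _ _).symm
      _ ≤ Real.exp L := Real.exp_le_exp.2 (by linarith)
      _ = x := hxe.symm
  have h3 : ∀ z : ℕ, 400 * (z : ℝ) ≤ L → (4 : ℝ) ^ z ≤ x ^ (1 / 50 : ℝ) := by
    intro z hz
    rw [hp]
    have h4 : (4 : ℝ) ≤ Real.exp 2 := by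
      have h5 := Real.exp_one_gt_d9
      have h6 : Real.exp 2 = Real.exp 1 * Real.exp 1 := by rw [← Real.exp_add]; norm_num
      rw [h6]
      nlinarith
    calc (4 : ℝ) ^ z ≤ (Real.exp 2) ^ z := pow_le_pow_left₀ (by norm_num) h4 _
      _ = Real.exp ((z : ℝ) * 2) := (Real.exp_nat_mul _ _).symm
      _ ≤ Real.exp (1 / 50 * L) := Real.exp_le_exp.2 (by linarith)
  have h4 : x ^ (1 / 64 : ℝ) ≤ x ^ (1 / 50 : ℝ) := by
    rw [hp, hp]
    exact Real.exp_le_exp.2 (by linarith)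
  have h5 : 2 * x ^ (9 / 10 : ℝ) ≤ x / (4 * x ^ (1 / 50 : ℝ)) := by
    have h6 : 0 < x ^ (1 / 50 : ℝ) := Real.rpow_pos_of_pos hx _
    rw [le_div_iff₀ (by positivity), hp, hp]
    have h7 : 2 * Real.exp (9 / 10 * L) * (4 * Real.exp (1 / 50 * L)) = 8 * Real.exp (9 / 10 * L + 1 / 50 * L) := by
      rw [Real.exp_add]
      ring
    rw [h7]
    have h8 : (8 : ℝ) ≤ Real.exp 8 := by
      have := Real.add_one_le_exp (8 : ℝ)
      linarith
    calc 8 * Real.exp (9 / 10 * L + 1 / 50 * L) ≤ Real.exp 8 * Real.exp (9 / 10 * L + 1 / 50 * L) :=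
          mul_le_mul_of_nonneg_right h8 (Real.exp_pos _).le
      _ = Real.exp (8 + (9 / 10 * L + 1 / 50 * L)) := (Real.exp_add _ _).symm
      _ ≤ Real.exp L := Real.exp_le_exp.2 (by linarith)
      _ = x := hxe.symm
  have h6 : 1 ≤ x ^ (9 / 10 : ℝ) := by
    rw [hp]
    exact Real.one_le_exp (by linarith)
  have h7 : ∀ z : ℕ, L ≤ 800 * (z : ℝ) → Real.sqrt L ≤ (z : ℝ) := by
    intro z hz
    have h8 : 800 ≤ Real.sqrt L := by
      rw [show (800 : ℝ) = Real.sqrt (800 ^ 2) by rw [Real.sqrt_sq (by norm_num)]]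
      exact Real.sqrt_le_sqrt (by norm_num; linarith)
    have h9 : Real.sqrt L * Real.sqrt L = L := Real.mul_self_sqrt (by linarith)
    have h10 := mul_le_mul_of_nonneg_right h8 (Real.sqrt_nonneg L)
    linarith
  have h8 : ∀ z : ℕ, L ≤ 800 * (z : ℝ) → Real.log L / 2 ≤ Real.log (z : ℝ) := by
    intro z hz
    rw [← Real.log_sqrt (by linarith)]
    exact Real.log_le_log (Real.sqrt_pos.2 (by linarith)) (h7 z hz)
  exact ⟨h1, h2, h3, h4, h5, h6, h8⟩

theorem chw (hds : DsVQ) (m : ℕ) : ∃ c x0 : ℝ, 0 < c ∧ ∀ x : ℝ, x0 ≤ x → ∃ n : ℕ,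
    x / 2 < Nat.nth Nat.Prime n ∧ (Nat.nth Nat.Prime (n + m) : ℝ) ≤ x ∧
    ∀ j < m, c * sz (Real.log x) ≤ (Nat.nth Nat.Prime (n + j + 1) : ℝ) - Nat.nth Nat.Prime (n + j) := by
  obtain ⟨Cf, hCf, hphi⟩ := wb_phi
  obtain ⟨K, hmK, c0, x1, hc0, hcru⟩ := UC.cru m (2 * Cf) (by linarith)
  obtain ⟨c, hc, x2, hpre⟩ := H5CP.presieve K c0 hc0
  obtain ⟨x3, hds⟩ := hds
  refine ⟨c, max (max x1 (Real.exp x2)) (max x3 (Real.exp 640000)), hc, ?_⟩
  intro x hx
  have hx1 : x1 ≤ x := ((le_max_left _ _).trans (le_max_left _ _)).trans hx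
  have hx2 : Real.exp x2 ≤ x := ((le_max_right _ _).trans (le_max_left _ _)).trans hx
  have hx3 : x3 ≤ x := ((le_max_left _ _).trans (le_max_right _ _)).trans hx
  have hx4 : Real.exp 640000 ≤ x := ((le_max_right _ _).trans (le_max_right _ _)).trans hx
  have hx0 : 0 < x := lt_of_lt_of_le (Real.exp_pos _) hx4
  have hL : 640000 ≤ Real.log x := by
    rw [Real.le_log_iff_exp_le hx0]
    exact hx4
  have hL2 : x2 ≤ Real.log x := by
    rw [Real.le_log_iff_exp_le hx0]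
    exact hx2
  obtain ⟨n1, n2, n3, n4, n5, n6, n7⟩ := num1 hx0 hL
  obtain ⟨w0, z, Z, G, hw02, hw0z, hw0y, hz400, hz800, hZ4, hG, hpre⟩ := hpre (Real.log x) hL2
  obtain ⟨P, B, hP, hPle, hB, hBs, hds⟩ := hds x hx3 w0 z hw02 hw0y hw0z hz400
  obtain ⟨b, h, hbW, hh0, hsep', hcount⟩ := hpre P B (Or.inr hP) hB hBs
  have hh : ∀ i, i < K → 1 ≤ h i ∧ h i ≤ Z ∧ Nat.Coprime (b + h i) (H5CP.WW z P B) := by
    intro i hi
    obtain ⟨a1, a2, a3⟩ := hh0 i hi
    exact ⟨by omega, by omega, a3⟩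
  have hZ : (Z : ℝ) ≤ Real.log x ^ 2 := by
    have : (0 : ℝ) ≤ Z := Nat.cast_nonneg _
    linarith
  have hLL : 1 ≤ Real.log (Real.log x) := by
    rw [Real.le_log_iff_exp_le (by linarith)]
    have := Real.exp_one_lt_d9
    linarith
  have hBs1 : ∑ p ∈ B, 1 / (p : ℝ) ≤ 1 := by
    refine hBs.trans ?_
    rw [div_le_one (by positivity)]
    exact one_le_pow₀ hLL
  have n8 : 2 ≤ z := hw02.trans hw0z
  have hph := hphi z P B hP (fun p hp => (hB p hp).1) hBs1 n8
  have n7 := n7 z hz800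
  have hWdvd : ∀ {p : ℕ}, p.Prime → p ∣ H5CP.WW z P B → p ≤ z := fun hp hd =>
    ((wb_dvd hp).1 hd).1
  have hWle : (H5CP.WW z P B : ℝ) ≤ x ^ (1 / 50 : ℝ) := by
    refine le_trans ?_ (n3 z hz400)
    exact_mod_cast wb_le z P B
  have hWpos := wb_pos z P B
  have hzfl : (z : ℝ) ≤ Real.log x / 400 := by linarith
  obtain ⟨W, hW⟩ : ∃ W, W = H5CP.WW z P B := ⟨_, rfl⟩
  rw [← hW] at hds hcount hh hph hWdvd hWle hWpos
  have hWR : (1 : ℝ) ≤ W := by exact_mod_cast hWpos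
  obtain ⟨T, hT⟩ : ∃ T, T = ⌊x / (4 * (W : ℝ))⌋₊ := ⟨_, rfl⟩
  rw [← hT] at hds
  obtain ⟨w, hw⟩ : ∃ w, w = ⌊Real.log x ^ 3⌋₊ := ⟨_, rfl⟩
  have hL3 : Real.log x ^ 2 * 40000 ≤ Real.log x ^ 3 := by
    rw [pow_succ (Real.log x) 2]
    exact mul_le_mul_of_nonneg_left (by linarith) (sq_nonneg _)
  have hL21 : 1 ≤ Real.log x ^ 2 := one_le_pow₀ (by linarith)
  have hL12 : Real.log x ≤ Real.log x ^ 2 := le_self_pow₀ (by linarith) (by norm_num)
  have hw1 : (w : ℝ) ≤ Real.log x ^ 3 := by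
    rw [hw]
    exact Nat.floor_le (by positivity)
  have hw2 : Real.log x ^ 2 ≤ w := by
    have : Real.log x ^ 3 < (w : ℝ) + 1 := by rw [hw]; exact Nat.lt_floor_add_one _
    linarith
  have hw3 : Real.log x ≤ w := hL12.trans hw2
  have hZw : Z ≤ w := by
    have : (Z : ℝ) ≤ w := hZ.trans hw2
    exact_mod_cast this
  have hTle : (T : ℝ) ≤ x / (4 * (W : ℝ)) := by
    rw [hT]
    exact Nat.floor_le (by positivity)
  have hTge : x ^ (9 / 10 : ℝ) ≤ T := by
    have h1 : x / (4 * (W : ℝ)) < (T : ℝ) + 1 := by rw [hT]; exact Nat.lt_floor_add_one _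
    have h2 : x / (4 * x ^ (1 / 50 : ℝ)) ≤ x / (4 * (W : ℝ)) := by
      refine div_le_div_of_nonneg_left hx0.le (by positivity) ?_
      linarith
    linarith
  -- the starting point
  obtain ⟨B0, hB0⟩ : ∃ B0, B0 = b % W + W * (⌊x / 2⌋₊ / W + 1) := ⟨_, rfl⟩
  have hB0mod : B0 ≡ b [MOD W] := by
    rw [hB0]
    unfold Nat.ModEq
    rw [Nat.add_mul_mod_self_left, Nat.mod_mod]
  have hB0lo : x / 2 < B0 := by
    have h1 : x / 2 < (⌊x / 2⌋₊ : ℝ) + 1 := Nat.lt_floor_add_one _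
    have h2 : ⌊x / 2⌋₊ + 1 ≤ B0 := by
      have := Nat.lt_mul_div_succ ⌊x / 2⌋₊ hWpos
      rw [hB0]
      omega
    have h3 : ((⌊x / 2⌋₊ + 1 : ℕ) : ℝ) ≤ B0 := by exact_mod_cast h2
    push_cast at h3
    linarith
  have hB0hi : (B0 : ℝ) ≤ x / 2 + 2 * W := by
    have h1 : ((⌊x / 2⌋₊ : ℕ) : ℝ) ≤ x / 2 := Nat.floor_le (by positivity)
    have h2 : B0 ≤ ⌊x / 2⌋₊ + 2 * W := by
      have h3 := Nat.mul_div_le ⌊x / 2⌋₊ W
      have h4 := Nat.mod_lt b hWpos
      rw [hB0, Nat.mul_add, Nat.mul_one]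
      omega
    have h3 : (B0 : ℝ) ≤ ((⌊x / 2⌋₊ + 2 * W : ℕ) : ℝ) := by exact_mod_cast h2
    push_cast at h3
    linarith
  have hWx : (W : ℝ) ≤ x / 100 := hWle.trans n2
  have hZx : (Z : ℝ) ≤ x / 100 := hZ.trans n1
  have hcop : ∀ s, Nat.Coprime (B0 + s) W ↔ Nat.Coprime (b + s) W := by
    intro s
    have h1 : B0 + s ≡ b + s [MOD W] := Nat.ModEq.add_right s hB0mod
    unfold Nat.Coprime
    rw [Nat.ModEq.gcd_eq h1]
  -- the shifts
  obtain ⟨S, hS⟩ : ∃ S : Finset ℕ, S = ((Icc 1 Z).filter (fun s => Nat.Coprime (b + s) W)) \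
    Finset.image (fun i : Fin K => h i) (Finset.univ : Finset (Fin K)) := ⟨_, rfl⟩
  have hmemS : ∀ s, s ∈ S ↔ (1 ≤ s ∧ s ≤ Z) ∧ Nat.Coprime (b + s) W ∧ ∀ i : Fin K, h i ≠ s := by
    intro s
    rw [hS, mem_sdiff, mem_filter, mem_Icc, mem_image]
    constructor
    · rintro ⟨⟨h1, h2⟩, h3⟩
      exact ⟨h1, h2, fun i hi => h3 ⟨i, mem_univ _, hi⟩⟩
    · rintro ⟨h1, h2, h3⟩
      exact ⟨⟨h1, h2⟩, fun ⟨i, _, hi⟩ => h3 i hi⟩
  have hcard : (Fintype.card {s // s ∈ S} : ℝ) ≤ c0 * Real.log x := by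
    rw [Fintype.card_coe]
    refine le_trans ?_ hcount
    have : S.card ≤ ((Icc 1 Z).filter (fun s => Nat.Coprime (b + s) W)).card := by
      rw [hS]
      exact card_le_card sdiff_subset
    exact_mod_cast this
  have hinjh : Function.Injective (fun i : Fin K => h i) := by
    intro i j hij
    by_contra hne
    rcases lt_or_gt_of_ne hne with h1 | h1
    · have := hsep' i j h1 j.2
      simp only at hij
      omega
    · have := hsep' j i h1 i.2
      simp only at hij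
      omega
  have hFw : Fw w w Z W none (Sum.elim (fun i : Fin K => B0 + h i) (fun s : {s // s ∈ S} => B0 + s.1)) := by
    refine ⟨hWpos, ?_, ?_, ?_, hZw, ?_, ?_⟩
    · intro p hp hd
      have h1 := hWdvd hp hd
      have h2 : (p : ℝ) ≤ w := by
        have : (p : ℝ) ≤ z := by exact_mod_cast h1
        linarith
      exact_mod_cast h2
    · intro i j hij
      rcases i with i | i <;> rcases j with j | j
      · simp only [Sum.elim_inl] at hij
        have : i = j := hinjh (by show h i = h j; omega)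
        rw [this]
      · simp only [Sum.elim_inl, Sum.elim_inr] at hij
        exact absurd (by omega : h i = j.1) (((hmemS j.1).1 j.2).2.2 i)
      · simp only [Sum.elim_inl, Sum.elim_inr] at hij
        exact absurd (by omega : h j = i.1) (((hmemS i.1).1 i.2).2.2 j)
      · simp only [Sum.elim_inr] at hij
        have : i = j := Subtype.ext (by omega)
        rw [this]
    · have hbd : ∀ i : Fin K ⊕ {s // s ∈ S}, ∃ s : ℕ, s ≤ Z ∧
          Sum.elim (fun i : Fin K => B0 + h i) (fun s : {s // s ∈ S} => B0 + s.1) i = B0 + s := by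
        intro i
        rcases i with i | i
        · exact ⟨h i, (hh i i.2).2.1, rfl⟩
        · exact ⟨i.1, ((hmemS i.1).1 i.2).1.2, rfl⟩
      intro i j
      obtain ⟨s, hs1, hs2⟩ := hbd i
      obtain ⟨u, hu1, hu2⟩ := hbd j
      rw [hs2, hu2, abs_le]
      push_cast
      constructor <;> omega
    · intro i
      rcases i with i | i
      · have := (hh i i.2).1
        show 1 ≤ B0 + h i
        omega
      · have := ((hmemS i.1).1 i.2).1.1
        show 1 ≤ B0 + i.1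
        omega
    · intro k hk
      exact absurd hk (by simp)
  have hcHlo : ∀ i : Fin K, x / 3 ≤ ((B0 + h i : ℕ) : ℝ) := by
    intro i
    push_cast
    have : (0 : ℝ) ≤ h i := Nat.cast_nonneg _
    linarith
  have hcHhi : ∀ i : Fin K, ((B0 + h i : ℕ) : ℝ) ≤ 2 * x / 3 := by
    intro i
    push_cast
    have : (h i : ℝ) ≤ Z := by exact_mod_cast (hh i i.2).2.1
    linarith
  obtain ⟨t, ht, hi1, hi2⟩ := hcru x hx1 P hP hPle (Fin K) {s // s ∈ S} (Fintype.card_fin K) hcard w Z W T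
    (fun i => B0 + h i) (fun s => B0 + s.1) hw3 hw1 hZw hFw hTge hcHlo (by
      intro i
      obtain ⟨Y, E, hY1, hY2, hY3⟩ := hds w (B0 + h i) hw3 (hcHlo i) (hcHhi i) ((hcop (h i)).2 (hh i i.2).2.2)
      refine ⟨Y, E, hY1, le_trans ?_ hY2, hY3⟩
      have hL0 : 0 < Real.log x := by linarith
      have e1 : (W : ℝ) * T / ((Nat.totient W : ℝ) * Real.log x) =
          (T : ℝ) * (((W : ℝ) / (Nat.totient W : ℝ)) / Real.log x) := by
        rw [mul_comm (W : ℝ) T, mul_div_assoc, div_div]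
      rw [e1]
      refine mul_le_mul_of_nonneg_left ?_ (Nat.cast_nonneg T)
      have e2 : Real.log (Real.log x) / (2 * Cf * Real.log x) = (Real.log (Real.log x) / 2 / Cf) / Real.log x := by
        rw [div_div, div_div, mul_assoc]
      rw [e2]
      refine div_le_div_of_nonneg_right ?_ hL0.le
      refine le_trans ?_ hph
      exact div_le_div_of_nonneg_right n7 (by linarith))
  -- the window
  have hWT : (W : ℝ) * T ≤ x / 4 := by
    have h1 : (W : ℝ) * T ≤ W * (x / (4 * (W : ℝ))) := mul_le_mul_of_nonneg_left hTle (by linarith)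
    have h2 : (W : ℝ) * (x / (4 * (W : ℝ))) = x / 4 := by field_simp
    linarith
  obtain ⟨n, hn⟩ : ∃ n, n = W * t + B0 := ⟨_, rfl⟩
  have hnlo : x / 2 < n := by
    rw [hn]
    push_cast
    have : (0 : ℝ) ≤ W * t := by positivity
    linarith
  have hnhi : (n : ℝ) + Z ≤ x := by
    rw [hn]
    push_cast
    have h1 : (W : ℝ) * t ≤ W * T := mul_le_mul_of_nonneg_left (by exact_mod_cast ht.le) (by linarith)
    linarith
  have hnz : z < n := by
    have h1 : (z : ℝ) < n := by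
      linarith
    exact_mod_cast h1
  have hnc : ∀ s, Nat.Coprime (n + s) W ↔ Nat.Coprime (b + s) W := by
    intro s
    rw [← hcop s]
    have h1 : n + s ≡ B0 + s [MOD W] := by
      refine Nat.ModEq.add_right s ?_
      rw [hn]
      unfold Nat.ModEq
      rw [Nat.mul_add_mod]
    unfold Nat.Coprime
    rw [Nat.ModEq.gcd_eq h1]
  have key := H91UC.chain_nat (K := K) (m := m) (n := n) (N := Z) (G := G) (h := fun i => h i)
    (fun i j hij => hsep' i j hij j.2) (fun i => ⟨(hh i i.2).1, (hh i i.2).2.1⟩) (by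
      refine hi2.trans ?_
      refine Finset.card_le_card_of_injOn (fun i : Fin K => h i) ?_ (fun i _ j _ hij => hinjh hij)
      intro i hi
      have hi' := (Finset.mem_filter.1 (Finset.mem_coe.1 hi)).2
      apply Finset.mem_coe.2
      rw [mem_filter, mem_image]
      refine ⟨⟨i, mem_univ _, rfl⟩, ?_⟩
      have e : n + h i = W * t + (B0 + h i) := by rw [hn]; ring
      rw [e]
      exact hi') (by
      intro k hk1 hk2 hk3 hkp
      have hcp : Nat.Coprime (b + k) W := by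
        rw [← hnc k, Nat.Prime.coprime_iff_not_dvd hkp]
        intro hd
        have := hWdvd hkp hd
        omega
      have hkS : k ∈ S := by
        rw [hmemS]
        refine ⟨⟨hk1, hk2⟩, hcp, fun i hi => hk3 ?_⟩
        rw [mem_image]
        exact ⟨i, mem_univ _, hi⟩
      obtain ⟨p, hp1, hp2, hp3⟩ := hi1 ⟨k, hkS⟩
      have e : W * t + (B0 + k) = n + k := by rw [hn]; ring
      have hp3' : p ∣ n + k := by rw [← e]; exact hp3
      have h1 := (Nat.prime_dvd_prime_iff_eq hp1 hkp).1 hp3'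
      have h2 : (n : ℝ) ≤ p := by
        rw [h1]
        exact_mod_cast Nat.le_add_right n k
      linarith)
  refine ⟨Nat.primeCounting n, ?_, ?_, ?_⟩
  · have h1 := (key.1 0 (Nat.zero_le _)).1
    rw [add_zero] at h1
    have h2 : (n : ℝ) < Nat.nth Nat.Prime (Nat.primeCounting n) := by exact_mod_cast h1
    linarith
  · have h1 := (key.1 m le_rfl).2
    have h2 : (Nat.nth Nat.Prime (Nat.primeCounting n + m) : ℝ) ≤ ((n + Z : ℕ) : ℝ) := by exact_mod_cast h1
    push_cast at h2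
    linarith
  · intro j hj
    have h1 := key.2 j hj
    have h2 : ((Nat.nth Nat.Prime (Nat.primeCounting n + j) + G : ℕ) : ℝ) <
        Nat.nth Nat.Prime (Nat.primeCounting n + j + 1) := by exact_mod_cast h1
    push_cast at h2
    have h3 : c * sz (Real.log x) = c * Real.log x * Real.log (Real.log x) ^ 2 *
        Real.log (Real.log (Real.log (Real.log x))) / Real.log (Real.log (Real.log x)) ^ 2 := by
      unfold sz
      ring
    rw [h3]
    linarith

end H91UX
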