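import Mathlib

/-!
# Windows with separated primes give chains of long gaps (copy of `H91UC.chain_nat` without the other imports)
-/

set_option autoImplicit false

open Finset

namespace H91UX

lemma count_eq_add (n N : ℕ) :
    Nat.count Nat.Prime (n + N + 1) = Nat.count Nat.Prime (n + 1)
      + ((Finset.Icc 1 N).filter (fun k => (n + k).Prime)).card := by
  have h1 : n + N + 1 = (n + 1) + N := by omega
  rw [h1, Nat.count_add]
  congr 1
  rw [Nat.count_eq_card_filter_range]
  apply Finset.card_nbij' (i := fun k => k + 1) (j := fun k => k - 1)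
  · intro k hk
    simp only [Finset.coe_filter, Set.mem_ofPred_eq, Finset.mem_range, Finset.mem_Icc] at hk ⊢
    refine ⟨by omega, ?_⟩
    rw [show n + (k + 1) = n + 1 + k by ring]
    exact hk.2
  · intro k hk
    simp only [Finset.coe_filter, Set.mem_ofPred_eq, Finset.mem_range, Finset.mem_Icc] at hk ⊢
    refine ⟨by omega, ?_⟩
    rw [show n + 1 + (k - 1) = n + k by omega]
    exact hk.2
  · intro k _
    simp
  · intro k hk
    simp only [Finset.coe_filter, Set.mem_ofPred_eq, Finset.mem_range, Finset.mem_Icc] at hk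
    show k - 1 + 1 = k
    omega

/-- the pointwise statement: a window all of whose primes are among `n + h i`, with the `h i`
separated by more than `G`, and at least `m + 1` primes -/
theorem chain_nat {K m n N G : ℕ} {h : Fin K → ℕ} (hsep : ∀ i j : Fin K, i < j → h i + G < h j)
    (hin : ∀ i, 1 ≤ h i ∧ h i ≤ N)
    (hG1 : m + 1 ≤ ((Finset.univ.image h).filter (fun k => (n + k).Prime)).card)
    (hG2 : ∀ k : ℕ, 1 ≤ k → k ≤ N → k ∉ Finset.univ.image h → ¬ (n + k).Prime) :
    (∀ j ≤ m, n < Nat.nth Nat.Prime (Nat.primeCounting n + j) ∧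
      Nat.nth Nat.Prime (Nat.primeCounting n + j) ≤ n + N) ∧
    ∀ j < m, Nat.nth Nat.Prime (Nat.primeCounting n + j) + G <
      Nat.nth Nat.Prime (Nat.primeCounting n + j + 1) := by
  have hcount : Nat.primeCounting n + (m + 1) ≤ Nat.count Nat.Prime (n + N + 1) := by
    rw [count_eq_add]
    have h1 : (Finset.univ.image h).filter (fun k => (n + k).Prime)
        ⊆ (Finset.Icc 1 N).filter (fun k => (n + k).Prime) := by
      intro k hk
      rw [Finset.mem_filter, Finset.mem_image] at hk
      obtain ⟨⟨i, _, rfl⟩, hk2⟩ := hk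
      rw [Finset.mem_filter, Finset.mem_Icc]
      exact ⟨hin i, hk2⟩
    have h2 := Finset.card_le_card h1
    have h3 : Nat.primeCounting n = Nat.count Nat.Prime (n + 1) := rfl
    rw [h3]
    omega
  have hpos : ∀ j ≤ m, n < Nat.nth Nat.Prime (Nat.primeCounting n + j) ∧
      Nat.nth Nat.Prime (Nat.primeCounting n + j) ≤ n + N := by
    intro j hj
    constructor
    · have h1 : n + 1 ≤ Nat.nth Nat.Prime (Nat.primeCounting n + j) := by
        rw [← Nat.count_le_iff_le_nth Nat.infinite_setOfPred_prime]
        show Nat.primeCounting n ≤ _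
        omega
      omega
    · have h1 : Nat.nth Nat.Prime (Nat.primeCounting n + j) < n + N + 1 := by
        apply Nat.nth_lt_of_lt_count
        omega
      omega
  refine ⟨hpos, ?_⟩
  intro j hj
  have hidx : ∀ j ≤ m, ∃ i : Fin K, Nat.nth Nat.Prime (Nat.primeCounting n + j) = n + h i := by
    intro j hj
    obtain ⟨h1, h2⟩ := hpos j hj
    set q := Nat.nth Nat.Prime (Nat.primeCounting n + j) with hq
    have hqp : q.Prime := Nat.nth_mem_of_infinite Nat.infinite_setOfPred_prime _
    have h3 : q = n + (q - n) := by omega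
    by_contra hcon
    push Not at hcon
    have h4 : (q - n) ∉ Finset.univ.image h := by
      intro hmem
      rw [Finset.mem_image] at hmem
      obtain ⟨i, _, hi⟩ := hmem
      exact hcon i (by omega)
    apply hG2 (q - n) (by omega) (by omega) h4
    rw [← h3]; exact hqp
  obtain ⟨i, hi⟩ := hidx j hj.le
  obtain ⟨i', hi'⟩ := hidx (j + 1) hj
  have hlt : Nat.nth Nat.Prime (Nat.primeCounting n + j)
      < Nat.nth Nat.Prime (Nat.primeCounting n + (j + 1)) :=
    Nat.nth_strictMono Nat.infinite_setOfPred_prime (by omega)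
  rw [← add_assoc] at hi' hlt
  rw [hi, hi'] at hlt ⊢
  have hlt' : h i < h i' := by omega
  have hne : i < i' := by
    by_contra hcon
    rcases lt_or_eq_of_le (not_lt.mp hcon) with h1 | h1
    · have h2 := hsep i' i h1
      omega
    · rw [h1] at hlt'
      exact lt_irrefl _ hlt'
  have := hsep i i' hne
  omega

end H91UX
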