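import Pool.Agent.H17.UC.Dgu
import Pool.Agent.H5.CP.DefsCl

/-!
# MP_028722, chains of gaps of the size of LargeGaps (UX): definitions and interfaces

Overview: /team-store/H91_UX.md, /team-store/H68_BVQ.md, /team-store/H5_RC.md.
`H5CP.WW z P B` = the product of the primes `≤ z` other than `P` and outside `B` (`B` = a sparse set of dropped primes).
The presieve with a cluster is `H5CP.presieve` (`Pool/Agent/H5/CP/Par.lean`).
-/

set_option autoImplicit false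

open Finset EG H69PG H73PC

namespace H91UX

/-- equidistribution of the primes in the classes modulo `WW z P B · d` -/
def DsVQ : Prop := ∃ x0 : ℝ, ∀ x : ℝ, x0 ≤ x → ∀ w0 z : ℕ, 2 ≤ w0 → (w0 : ℝ) ≤ Real.log x ^ (1 / 100 : ℝ) → w0 ≤ z →
    400 * (z : ℝ) ≤ Real.log x → ∃ (P : ℕ) (B : Finset ℕ), P.Prime ∧
    (P : ℝ) ≤ Real.exp (Real.log x ^ (1 / 20 : ℝ)) ∧
    (∀ p ∈ B, p.Prime ∧ w0 < p ∧ p ≤ z) ∧
    ∑ p ∈ B, (1 : ℝ) / p ≤ 1 / Real.log (Real.log x) ^ 2 ∧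
    ∀ w k : ℕ, Real.log x ≤ w → x / 3 ≤ (k : ℝ) → (k : ℝ) ≤ 2 * x / 3 →
      Nat.Coprime k (H5CP.WW z P B) → ∃ (Y : ℝ) (E : ℕ → ℝ),
      UC.DsP P w ⌊x ^ (3 / 8 : ℝ)⌋₊ (H5CP.WW z P B) (some k)
        ((range ⌊x / (4 * (H5CP.WW z P B : ℝ))⌋₊).filter (fun t => (H5CP.WW z P B * t + k).Prime)) Y E ∧
      (H5CP.WW z P B : ℝ) * ⌊x / (4 * (H5CP.WW z P B : ℝ))⌋₊ /
        ((Nat.totient (H5CP.WW z P B) : ℝ) * Real.log x) ≤ Y ∧
      ∀ C : ℝ, 1 ≤ C → C ≤ Real.log x ^ (1 / 80 : ℝ) →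
        ErS ⌊x ^ (3 / 8 : ℝ)⌋₊ C (UC.Ep P E) ≤ Y * Real.exp (-Real.log x ^ (1 / 25 : ℝ))

/-- the size of the gaps: `log x (loglog x)² log₄ x/(log₃ x)²`, as a function of `y = log x` -/
noncomputable def sz (y : ℝ) : ℝ :=
  y * Real.log y ^ 2 * Real.log (Real.log (Real.log y)) / Real.log (Real.log y) ^ 2

end H91UX
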