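import Pool.Agent.H91.UX.Wb
import Pool.Agent.H68.BQ.DsQ

/-!
# MP_028722, UX: `DsVQ` from helper68's `BVQ.dsQ`
-/

set_option autoImplicit false

open Finset EG H69PG H73PC

namespace H91UX

/-- the primes of `(w0, z]` other than `P` -/
def Zq (w0 z P : ℕ) : Finset ℕ := (Icc 1 z).filter (fun p : ℕ => p.Prime ∧ w0 < p ∧ p ≠ P)

theorem mem_Zq {w0 z P p : ℕ} : p ∈ Zq w0 z P ↔ (1 ≤ p ∧ p ≤ z) ∧ p.Prime ∧ w0 < p ∧ p ≠ P := by
  unfold Zq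
  rw [mem_filter, mem_Icc]

theorem md_eq {w0 z P : ℕ} {A : Finset ℕ} (hw : w0 ≤ z) (hA : A ⊆ Zq w0 z P) :
    BVQ.md (H5CP.WW w0 P ∅) A = H5CP.WW z P (Zq w0 z P \ A) := by
  unfold BVQ.md H5CP.WW
  have hd : Disjoint (H5CP.PP w0 P ∅) A := by
    rw [Finset.disjoint_left]
    intro p hp hpA
    have h1 := H5CP.mem_PP.1 hp
    have h2 := mem_Zq.1 (hA hpA)
    omega
  rw [← Finset.prod_union hd]
  apply Finset.prod_congr _ (fun _ _ => rfl)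
  ext p
  rw [mem_union, H5CP.mem_PP, H5CP.mem_PP, mem_sdiff, mem_Zq]
  constructor
  · rintro (⟨⟨h1, h2⟩, h3, h4, _⟩ | h)
    · exact ⟨⟨h1, by omega⟩, h3, h4, fun h => absurd h.1.2.2.1 (by omega)⟩
    · have h2 := mem_Zq.1 (hA h)
      exact ⟨h2.1, h2.2.1, h2.2.2.2, fun h' => h'.2 h⟩
  · rintro ⟨⟨h1, h2⟩, h3, h4, h5⟩
    by_cases hpw : p ≤ w0
    · exact Or.inl ⟨⟨h1, hpw⟩, h3, h4, by simp⟩
    · right
      by_contra hpA
      exact h5 ⟨⟨⟨h1, h2⟩, h3, by omega, h4⟩, hpA⟩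

theorem Dsv_num : ∃ L0 : ℝ, ∀ L : ℝ, L0 ≤ L → 1 ≤ L ∧ 2 * L ^ (1 / 100 : ℝ) ≤ L ^ (1 / 20 : ℝ) / 3 ∧
    L ^ (-(1 / 600) : ℝ) ≤ 1 / Real.log L ^ 2 := by
  have h1 := (tendsto_rpow_atTop (show (0 : ℝ) < 1 / 25 by norm_num)).eventually_ge_atTop (6 : ℝ)
  have h2 := (isLittleO_log_rpow_atTop (r := 1 / 1200) (by norm_num)).bound (c := 1) one_pos
  obtain ⟨L0, hL0⟩ := Filter.eventually_atTop.1 (h1.and h2)
  refine ⟨max L0 3, fun L hL => ?_⟩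
  obtain ⟨a1, a2⟩ := hL0 L ((le_max_left _ _).trans hL)
  have h3 : 3 ≤ L := (le_max_right _ _).trans hL
  have hLp : 0 < L := by linarith
  have hlog : 1 < Real.log L := by
    rw [Real.lt_log_iff_exp_lt hLp]
    have := Real.exp_one_lt_d9
    linarith
  refine ⟨by linarith, ?_, ?_⟩
  · have e : L ^ (1 / 20 : ℝ) = L ^ (1 / 100 : ℝ) * L ^ (1 / 25 : ℝ) := by
      rw [← Real.rpow_add hLp]
      norm_num
    rw [e]
    have h4 : 0 < L ^ (1 / 100 : ℝ) := Real.rpow_pos_of_pos hLp _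
    nlinarith
  · rw [Real.norm_of_nonneg (by linarith), Real.norm_of_nonneg (by positivity), one_mul] at a2
    have h5 : Real.log L ^ 2 ≤ L ^ (1 / 600 : ℝ) := by
      have h6 : Real.log L ^ 2 ≤ (L ^ (1 / 1200 : ℝ)) ^ 2 := pow_le_pow_left₀ (by linarith) a2 2
      have h7 : (L ^ (1 / 1200 : ℝ)) ^ 2 = L ^ (1 / 600 : ℝ) := by
        rw [pow_two, ← Real.rpow_add hLp]
        norm_num
      rwa [h7] at h6
    rw [Real.rpow_neg hLp.le, ← one_div]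
    exact one_div_le_one_div_of_le (by positivity) h5

theorem dsv : DsVQ := by
  obtain ⟨x1, h⟩ := BVQ.dsQ
  obtain ⟨L0, hnum⟩ := Dsv_num
  refine ⟨max x1 (Real.exp (max L0 1)), fun x hx w0 z hw02 hw0 hw0z hz => ?_⟩
  have hx1 : x1 ≤ x := (le_max_left _ _).trans hx
  have hx2 : Real.exp (max L0 1) ≤ x := (le_max_right _ _).trans hx
  have hx0 : 0 < x := lt_of_lt_of_le (Real.exp_pos _) hx2
  have hL : max L0 1 ≤ Real.log x := by
    rw [Real.le_log_iff_exp_le hx0]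
    exact hx2
  obtain ⟨P, hP, hPle, h⟩ := h x hx1
  obtain ⟨b1, b2, b3⟩ := hnum (Real.log x) ((le_max_left _ _).trans hL)
  have h4 : (4 : ℝ) ≤ Real.exp (139 / 100) := by
    have h5 : (4 : ℝ) = Real.exp (Real.log 4) := (Real.exp_log (by norm_num)).symm
    rw [h5]
    apply Real.exp_le_exp.2
    have h6 : Real.log 4 = 2 * Real.log 2 := by
      rw [show (4 : ℝ) = 2 ^ 2 by norm_num, Real.log_pow]
      norm_num
    rw [h6]
    have := Real.log_two_lt_d9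
    linarith
  have hpow : ∀ n : ℕ, (4 : ℝ) ^ n ≤ Real.exp (139 / 100 * n) := by
    intro n
    calc (4 : ℝ) ^ n ≤ Real.exp (139 / 100) ^ n := pow_le_pow_left₀ (by norm_num) h4 n
      _ = Real.exp (139 / 100 * n) := by rw [← Real.exp_nat_mul, mul_comm]
  have hPl : BVQ.Pl P (H5CP.WW w0 P ∅) (Zq w0 z P) (Real.log x / 2) := by
    refine ⟨wb_pos _ _ _, ?_, ?_, ?_, ?_, ?_⟩
    · intro hd
      exact ((wb_dvd hP).1 hd).2.1 rfl
    · exact fun p hp => (mem_Zq.1 hp).2.1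
    · exact fun p hp => (mem_Zq.1 hp).2.2.2
    · intro p hp hd
      have h1 := mem_Zq.1 hp
      have h2 := (wb_dvd h1.2.1).1 hd
      omega
    · intro p hp
      have h1 := (mem_Zq.1 hp).1.2
      have h2 : (p : ℝ) ≤ z := by exact_mod_cast h1
      have h3 : (0 : ℝ) ≤ z := Nat.cast_nonneg z
      linarith
  have hW0 : (H5CP.WW w0 P ∅ : ℝ) ≤ Real.exp (Real.log x ^ (1 / 20 : ℝ) / 3) := by
    have h1 : (H5CP.WW w0 P ∅ : ℝ) ≤ (4 : ℝ) ^ w0 := by exact_mod_cast wb_le w0 P ∅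
    refine h1.trans ((hpow w0).trans (Real.exp_le_exp.2 ?_))
    have h2 : (0 : ℝ) ≤ w0 := Nat.cast_nonneg w0
    linarith
  have hmd0 : BVQ.md (H5CP.WW w0 P ∅) (Zq w0 z P) = H5CP.WW z P (Zq w0 z P \ Zq w0 z P) :=
    md_eq hw0z (Finset.Subset.refl _)
  have hV : (BVQ.md (H5CP.WW w0 P ∅) (Zq w0 z P) : ℝ) ≤ x ^ (1 / 72 : ℝ) := by
    rw [hmd0]
    have h1 : (H5CP.WW z P (Zq w0 z P \ Zq w0 z P) : ℝ) ≤ (4 : ℝ) ^ z := by
      exact_mod_cast wb_le z P (Zq w0 z P \ Zq w0 z P)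
    refine h1.trans ((hpow z).trans ?_)
    rw [Real.rpow_def_of_pos hx0]
    apply Real.exp_le_exp.2
    linarith
  obtain ⟨A, hA, hsum, hmain⟩ := h (H5CP.WW w0 P ∅) (Zq w0 z P) hPl hW0 hV
  have hmd := md_eq hw0z hA
  rw [hmd] at hmain
  refine ⟨P, Zq w0 z P \ A, hP, hPle, ?_, hsum.trans b3, ?_⟩
  · intro p hp
    have h1 := mem_Zq.1 (mem_sdiff.1 hp).1
    exact ⟨h1.2.1, h1.2.2.1, h1.1.2⟩
  · intro w k hw hk1 hk2 hk3
    refine hmain w k ?_ hk1 hk2 hk3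
    intro p hp hd
    rw [hmd0] at hd
    have h1 := ((wb_dvd hp).1 hd).1
    have h2 : (p : ℝ) ≤ w := by
      have h3 : (p : ℝ) ≤ z := by exact_mod_cast h1
      have h4' : (0 : ℝ) ≤ z := Nat.cast_nonneg z
      linarith
    exact_mod_cast h2

end H91UX
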