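import Pool.Agent.H91.UX.Dsv
import Pool.Agent.H91.UX.Chw

/-!
# MP_028722: chains of gaps of the size of LargeGaps
-/

set_option autoImplicit false

namespace H91UX

open Real in
/-- For every `m` there are `c > 0` and `x₀` such that for every `x ≥ x₀` there are `m + 1` consecutive primes in
`(x/2, x]` all whose `m` gaps are at least `c log x (loglog x)² log₄ x/(log₃ x)²`. -/
theorem chains (m : ℕ) : ∃ c x₀ : ℝ, 0 < c ∧ ∀ x : ℝ, x₀ ≤ x → ∃ n : ℕ,
    x / 2 < Nat.nth Nat.Prime n ∧ (Nat.nth Nat.Prime (n + m) : ℝ) ≤ x ∧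
    ∀ j < m, c * log x * log (log x) ^ 2 * log (log (log (log x))) / log (log (log x)) ^ 2 ≤
      (Nat.nth Nat.Prime (n + j + 1) : ℝ) - Nat.nth Nat.Prime (n + j) := by
  obtain ⟨c, x0, hc, h⟩ := chw dsv m
  refine ⟨c, x0, hc, fun x hx => ?_⟩
  obtain ⟨n, h1, h2, h3⟩ := h x hx
  refine ⟨n, h1, h2, fun j hj => ?_⟩
  have h4 := h3 j hj
  have e : c * sz (log x) = c * log x * log (log x) ^ 2 * log (log (log (log x))) / log (log (log x)) ^ 2 := by
    unfold sz
    ring
  rwa [e] at h4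

end H91UX
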