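import Pool.Agent.H91.UX.Df2
import Pool.Agent.H69.PG.VVf

/-!
# MP_028722, UX: the modulus `H5CP.WW z P B`
-/

set_option autoImplicit false

open Finset EG H69PG H73PC

namespace H91UX

theorem wb_pos (z P : ℕ) (B : Finset ℕ) : 1 ≤ H5CP.WW z P B := by
  unfold H5CP.WW
  exact Nat.one_le_iff_ne_zero.2 (prod_ne_zero_iff.2 fun p hp => (H5CP.mem_PP.1 hp).2.1.ne_zero)

theorem wb_dvd {z P p : ℕ} {B : Finset ℕ} (hp : p.Prime) : p ∣ H5CP.WW z P B ↔ p ≤ z ∧ p ≠ P ∧ p ∉ B := by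
  unfold H5CP.WW
  rw [hp.prime.dvd_finset_prod_iff]
  constructor
  · rintro ⟨q, hq, hd⟩
    have hq' := H5CP.mem_PP.1 hq
    have := (Nat.prime_dvd_prime_iff_eq hp hq'.2.1).1 hd
    subst this
    exact ⟨hq'.1.2, hq'.2.2.1, hq'.2.2.2⟩
  · rintro ⟨h1, h2, h3⟩
    exact ⟨p, H5CP.mem_PP.2 ⟨⟨hp.one_lt.le, h1⟩, hp, h2, h3⟩, dvd_rfl⟩

theorem wb_le (z P : ℕ) (B : Finset ℕ) : H5CP.WW z P B ≤ 4 ^ z := by
  refine le_trans ?_ (primorial_le_four_pow z)
  refine Nat.le_of_dvd (primorial_pos z) ?_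
  unfold H5CP.WW primorial
  refine Finset.prod_dvd_prod_of_subset _ _ _ ?_
  intro p hp
  have h := H5CP.mem_PP.1 hp
  rw [mem_filter, mem_range]
  exact ⟨by omega, h.2.1⟩

theorem one_sub_inv_ge {p : ℕ} (hp : p.Prime) : Real.exp (-(2 * (1 / (p : ℝ)))) ≤ 1 - 1 / (p : ℝ) := by
  have h2 : (2 : ℝ) ≤ p := by exact_mod_cast hp.two_le
  have h1 : 0 < (p : ℝ) := by linarith
  have h3 : 0 < 1 - 1 / (p : ℝ) := by
    rw [sub_pos, div_lt_one h1]
    linarith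
  have h4 : 1 / (1 - 1 / (p : ℝ)) ≤ Real.exp (2 * (1 / (p : ℝ))) := by
    have h5 := Real.add_one_le_exp (2 * (1 / (p : ℝ)))
    refine le_trans ?_ h5
    rw [div_le_iff₀ h3]
    have h6 : 1 / (p : ℝ) ≤ 1 / 2 := one_div_le_one_div_of_le (by norm_num) h2
    have h7 : 0 ≤ 1 / (p : ℝ) := by positivity
    nlinarith
  rw [Real.exp_neg, ← one_div]
  rw [div_le_iff₀ (Real.exp_pos _)]
  rw [div_le_iff₀ h3] at h4
  linarith

theorem prod_ge {S : Finset ℕ} (hS : ∀ p ∈ S, p.Prime) :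
    Real.exp (-(2 * ∑ p ∈ S, 1 / (p : ℝ))) ≤ ∏ p ∈ S, (1 - 1 / (p : ℝ)) := by
  rw [Finset.mul_sum, ← Finset.sum_neg_distrib, Real.exp_sum]
  exact Finset.prod_le_prod (fun p _ => (Real.exp_pos _).le) fun p hp => one_sub_inv_ge (hS p hp)

theorem wb_tot (z P : ℕ) (B : Finset ℕ) :
    (Nat.totient (H5CP.WW z P B) : ℝ) = (H5CP.WW z P B : ℝ) * ∏ p ∈ H5CP.PP z P B, (1 - 1 / (p : ℝ)) := by
  have h := Nat.totient_eq_mul_prod_factors (H5CP.WW z P B)
  have h' : (Nat.totient (H5CP.WW z P B) : ℝ) =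
      (H5CP.WW z P B : ℝ) * ∏ p ∈ (H5CP.WW z P B).primeFactors, (1 - (p : ℝ)⁻¹) := by
    have := congrArg (fun x : ℚ => (x : ℝ)) h
    push_cast at this
    exact this
  rw [h']
  congr 1
  apply Finset.prod_congr
  · ext p
    rw [Nat.mem_primeFactors, H5CP.mem_PP]
    constructor
    · rintro ⟨h1, h2, _⟩
      have := (wb_dvd h1).1 h2
      exact ⟨⟨h1.one_lt.le, this.1⟩, h1, this.2.1, this.2.2⟩
    · rintro ⟨⟨h0, h1⟩, h4, h2, h3⟩
      exact ⟨h4, (wb_dvd h4).2 ⟨h1, h2, h3⟩, by have := wb_pos z P B; omega⟩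
  · intro p _
    rw [one_div]

theorem wb_phi : ∃ C : ℝ, 1 ≤ C ∧ ∀ (z P : ℕ) (B : Finset ℕ), P.Prime → (∀ p ∈ B, p.Prime) →
    ∑ p ∈ B, 1 / (p : ℝ) ≤ 1 → 2 ≤ z →
    Real.log z / C ≤ (H5CP.WW z P B : ℝ) / (Nat.totient (H5CP.WW z P B) : ℝ) := by
  obtain ⟨c, hc, _, _, _, _, h5⟩ := Pool.Agent.H67.GT.MERT.mert
  refine ⟨c * Real.exp 3, ?_, ?_⟩
  · have : 1 ≤ Real.exp 3 := Real.one_le_exp (by norm_num)
    nlinarith
  intro z P B hP hB hBs hz
  have hV := h5 z hz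
  have hW : (0 : ℝ) < H5CP.WW z P B := by exact_mod_cast wb_pos z P B
  set S := H5CP.PP z P B with hS
  have hSp : ∀ p ∈ S, p.Prime := fun p hp => (H5CP.mem_PP.1 hp).2.1
  have hpos : ∀ {T : Finset ℕ}, (∀ p ∈ T, p.Prime) → 0 < ∏ p ∈ T, (1 - 1 / (p : ℝ)) := by
    intro T hT
    exact lt_of_lt_of_le (Real.exp_pos _) (prod_ge hT)
  have hphi : (0 : ℝ) < Nat.totient (H5CP.WW z P B) := by
    exact_mod_cast Nat.totient_pos.2 (wb_pos z P B)
  have hmain : Real.log z / (c * Real.exp 3) ≤ 1 / ∏ p ∈ S, (1 - 1 / (p : ℝ)) → Real.log z / (c * Real.exp 3) ≤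
      (H5CP.WW z P B : ℝ) / (Nat.totient (H5CP.WW z P B) : ℝ) := by
    intro h
    have e : (H5CP.WW z P B : ℝ) / (Nat.totient (H5CP.WW z P B) : ℝ) = 1 / ∏ p ∈ S, (1 - 1 / (p : ℝ)) := by
      rw [wb_tot, ← hS, ← div_div, div_self hW.ne']
    rw [e]
    exact h
  apply hmain
  have hle1 : ∀ {T : Finset ℕ}, (∀ p ∈ T, p.Prime) → ∏ p ∈ T, (1 - 1 / (p : ℝ)) ≤ 1 := by
    intro T hT
    refine Finset.prod_le_one (fun p hp => ?_) fun p hp => ?_
    · have := one_sub_inv_ge (hT p hp)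
      exact (Real.exp_pos _).le.trans this
    · have : 0 ≤ 1 / (p : ℝ) := by positivity
      linarith
  -- the comparison with the full product
  have hsub : Pool.Agent.H67.GT.prs Set.univ z ⊆ S ∪ insert P B := by
    intro p hp
    unfold Pool.Agent.H67.GT.prs at hp
    have hp' : p ≤ z ∧ p.Prime := by
      simp only [mem_filter, mem_Icc, Set.mem_univ, and_true] at hp
      exact ⟨hp.1.2, hp.2⟩
    rw [mem_union, mem_insert, hS, H5CP.mem_PP]
    by_cases h1 : p = P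
    · exact Or.inr (Or.inl h1)
    · by_cases h2 : p ∈ B
      · exact Or.inr (Or.inr h2)
      · exact Or.inl ⟨⟨hp'.2.one_lt.le, hp'.1⟩, hp'.2, h1, h2⟩
  have hprs : ∀ p ∈ Pool.Agent.H67.GT.prs Set.univ z, p.Prime := by
    intro p hp
    unfold Pool.Agent.H67.GT.prs at hp
    simp only [mem_filter, mem_Icc, Set.mem_univ, and_true] at hp
    exact hp.2
  have hPB : ∀ p ∈ insert P B, p.Prime := by
    intro p hp
    rw [mem_insert] at hp
    rcases hp with rfl | hp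
    · exact hP
    · exact hB p hp
  have hSub : S ⊆ Pool.Agent.H67.GT.prs Set.univ z := by
    intro p hp
    have hp' := H5CP.mem_PP.1 hp
    unfold Pool.Agent.H67.GT.prs
    simp only [mem_filter, mem_Icc, Set.mem_univ, and_true]
    exact ⟨hp'.1, hp'.2.1⟩
  have h1 : (∏ p ∈ S, (1 - 1 / (p : ℝ))) * Real.exp (-3) ≤ Pool.Agent.H67.GT.V Set.univ z := by
    unfold Pool.Agent.H67.GT.V
    rw [← Finset.prod_sdiff hSub, mul_comm]
    refine mul_le_mul_of_nonneg_right ?_ (hpos hSp).le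
    have h2 : Pool.Agent.H67.GT.prs Set.univ z \ S ⊆ insert P B := by
      intro p hp
      rw [mem_sdiff] at hp
      have := hsub hp.1
      rw [mem_union] at this
      exact this.resolve_left hp.2
    have h3 : Real.exp (-(2 * ∑ p ∈ (Pool.Agent.H67.GT.prs Set.univ z \ S), 1 / (p : ℝ))) ≤
        ∏ p ∈ (Pool.Agent.H67.GT.prs Set.univ z \ S), (1 - 1 / (p : ℝ)) :=
      prod_ge fun p hp => hPB p (h2 hp)
    refine le_trans (Real.exp_le_exp.2 ?_) h3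
    have h4 : ∑ p ∈ (Pool.Agent.H67.GT.prs Set.univ z \ S), 1 / (p : ℝ) ≤ ∑ p ∈ insert P B, 1 / (p : ℝ) :=
      Finset.sum_le_sum_of_subset_of_nonneg h2 fun p _ _ => by positivity
    have h5' : ∑ p ∈ insert P B, 1 / (p : ℝ) ≤ 1 / (P : ℝ) + ∑ p ∈ B, 1 / (p : ℝ) := by
      by_cases hPB' : P ∈ B
      · rw [insert_eq_of_mem hPB']
        have : 0 ≤ 1 / (P : ℝ) := by positivity
        linarith
      · rw [sum_insert hPB']
    have h6 : 1 / (P : ℝ) ≤ 1 / 2 :=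
      one_div_le_one_div_of_le (by norm_num) (by exact_mod_cast hP.two_le)
    linarith
  have hl : 0 < Real.log z := Real.log_pos (by exact_mod_cast (by omega : 1 < z))
  have hSpos := hpos hSp
  rw [div_le_div_iff₀ (by positivity) hSpos, one_mul]
  have h7 : (∏ p ∈ S, (1 - 1 / (p : ℝ))) ≤ Pool.Agent.H67.GT.V Set.univ z * Real.exp 3 := by
    have h8 : Real.exp (-3) * Real.exp 3 = 1 := by
      rw [← Real.exp_add]
      norm_num
    calc (∏ p ∈ S, (1 - 1 / (p : ℝ))) = ((∏ p ∈ S, (1 - 1 / (p : ℝ))) * Real.exp (-3)) * Real.exp 3 := by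
          rw [mul_assoc, h8, mul_one]
      _ ≤ _ := mul_le_mul_of_nonneg_right h1 (Real.exp_pos _).le
  calc Real.log z * ∏ p ∈ S, (1 - 1 / (p : ℝ))
      ≤ Real.log z * (Pool.Agent.H67.GT.V Set.univ z * Real.exp 3) := mul_le_mul_of_nonneg_left h7 hl.le
    _ = (Pool.Agent.H67.GT.V Set.univ z * Real.log z) * Real.exp 3 := by ring
    _ ≤ c * Real.exp 3 := mul_le_mul_of_nonneg_right hV (Real.exp_pos _).le

end H91UX
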